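import Mathlib.Algebra.Group.Basic

/-!
# Division bimagmas of inverse semigroups: algebraic part

`L x y` is `x \ y` and `R x y` is `x / y`.
-/

namespace X126.Bim

/-- The self-dual part of the identities (everything but `l3, l4, r3, r4`). -/
structure Core {S : Type*} (L R : S → S → S) : Prop where
  t1 : ∀ x y z, L (R x y) z = R y (L z x)
  t2 : ∀ x, L (R x x) x = x
  r1 : ∀ x y z w, R x (R y (R z w)) = R (R x (R w z)) y
  r2 : ∀ x z w, R (R x (R z z)) (R w w) = R (R x (R w w)) (R z z)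
  l1 : ∀ x y z w, L (L (L w z) y) x = L y (L (L z w) x)
  l2 : ∀ x z w, L (L z z) (L (L w w) x) = L (L w w) (L (L z z) x)

namespace Core

variable {S : Type*} {L R : S → S → S}

theorem t2' (h : Core L R) (x : S) : R x (L x x) = x := by
  rw [← h.t1, h.t2]

/-- left-right dual -/
theorem dual (h : Core L R) : Core (fun a b => R b a) (fun a b => L b a) where
  t1 := fun x y z => (h.t1 x z y).symm
  t2 := fun x => h.t2' x
  r1 := fun x y z w => h.l1 x y z w
  r2 := fun x z w => h.l2 x w z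
  l1 := fun x y z w => h.r1 x y z w
  l2 := fun x z w => h.r2 x w z

theorem A (h : Core L R) (x c : S) : L x c = R (L x x) (L c x) := by
  rw [← h.t1, h.t2']

theorem B (h : Core L R) (x b : S) : R b x = L (R x b) (R x x) := by
  rw [h.t1, h.t2]

theorem E (h : Core L R) (x y : S) : L (R x y) (R x y) = R y (R y (L x x)) := by
  rw [h.t1, h.t1]

theorem F (h : Core L R) (x z : S) : R (L z x) (L z x) = L (L (R x x) z) z := by
  rw [h.t1 x x z, h.t1]

theorem Re (h : Core L R) (x : S) : R (L x x) (L x x) = L x x := (h.A x x).symm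

theorem Lf (h : Core L R) (x : S) : L (R x x) (R x x) = R x x := (h.B x x).symm

theorem Le (h : Core L R) (x : S) : L (L x x) (L x x) = L x x := by
  have h1 := h.Lf (L x x)
  rwa [h.Re] at h1

theorem Rf (h : Core L R) (x : S) : R (R x x) (R x x) = R x x := by
  have h1 := h.Re (R x x)
  rwa [h.Lf] at h1

/-- `x' = x \ (x / x)` agrees with `(x \ x) / x`. -/
theorem inv_eq (h : Core L R) (x : S) : L x (R x x) = R (L x x) x := by
  rw [h.A x (R x x), h.t2]

theorem R_inv_inv (h : Core L R) (x : S) :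
    R (L x (R x x)) (L x (R x x)) = L x x := by
  rw [h.F, h.Rf, h.t2]

theorem L_inv_inv (h : Core L R) (x : S) :
    L (L x (R x x)) (L x (R x x)) = R x x := by
  rw [h.inv_eq, h.E, h.Le, h.t2']

theorem inv_inv (h : Core L R) (x : S) :
    L (L x (R x x)) (R (L x (R x x)) (L x (R x x))) = x := by
  rw [h.R_inv_inv, h.inv_eq, h.t1, h.Le, h.t2']

theorem S1 (h : Core L R) {p : S} (hp : R p p = p) (x y : S) : R x (R y p) = R (R x p) y := by
  have h1 := h.r1 x y p p
  rwa [hp] at h1

/-- `(x / y) / y' = x / (y \ y)` -/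
theorem R_R_inv (h : Core L R) (x y : S) : R (R x y) (L y (R y y)) = R x (L y y) := by
  have h1 := h.r1 x (L y (R y y)) (L y y) y
  rw [← h.inv_eq y, h.R_inv_inv, h.t2'] at h1
  exact h1.symm

/-- swapping two projections `L u u`, `L v v` behind `x /` -/
theorem R2 (h : Core L R) (x u v : S) : R (R x (L u u)) (L v v) = R (R x (L v v)) (L u u) := by
  have h1 := h.r2 x (L u u) (L v v)
  rwa [h.Re, h.Re] at h1

/-- `(x / y)' = y / x` -/
theorem T4 (h : Core L R) (x y : S) : L (R x y) (R (R x y) (R x y)) = R y x := by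
  rw [h.inv_eq, h.E, h.S1 (h.Re x) y y]
  have h1 := h.r1 (R y (L x x)) (R x y) (L y y) y
  rw [h.t2' y, ← h.inv_eq y, h.R_R_inv] at h1
  rw [← h1, h.S1 (h.Re y), h.R2, h.t2', ← h.S1 (h.Re x), h.t2']

/-- `(x \ y)' = y \ x` -/
theorem T4' (h : Core L R) (x y : S) : L (L x y) (R (L x y) (L x y)) = L y x := by
  have h1 := h.dual.T4 y x
  rw [h.inv_eq]
  exact h1

end Core

/-- All the identities. -/
structure Ax {S : Type*} (L R : S → S → S) : Prop extends Core L R where
  r3 : ∀ x y, R (R x x) (R y y) = R (R y y) (R x x)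
  r4 : ∀ x y, R (R (R x x) (R y y)) (R y y) = R (R x x) (R y y)
  l3 : ∀ x y, L (L x x) (L y y) = L (L y y) (L x x)
  l4 : ∀ x y, L (L (L x x) (L y y)) (L (L x x) (L y y)) = L (L x x) (L y y)

namespace Ax

variable {S : Type*} {L R : S → S → S}

theorem R3 (h : Ax L R) (x y : S) : R (L x x) (L y y) = R (L y y) (L x x) := by
  have h1 := h.r3 (L x x) (L y y)
  rwa [h.Re, h.Re] at h1

theorem R4 (h : Ax L R) (x y : S) : R (R (L x x) (L y y)) (L y y) = R (L x x) (L y y) := by
  have h1 := h.r4 (L x x) (L y y)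
  rwa [h.Re, h.Re] at h1

theorem q1 (h : Ax L R) (x y : S) : R (L x x) (L (L x x) (L y y)) = L (L x x) (L y y) := by
  have h1 := h.A (L x x) (L y y)
  rw [h.Le, h.l3 y x] at h1
  exact h1.symm

theorem q2 (h : Ax L R) (x y : S) : R (L y y) (L (L x x) (L y y)) = L (L x x) (L y y) := by
  rw [h.l3 x y]
  exact h.q1 y x

theorem q3 (h : Ax L R) (x y : S) :
    R (L (L x x) (L y y)) (L (L x x) (L y y)) = L (L x x) (L y y) := by
  have h1 := h.R_inv_inv (L (L x x) (L y y))
  rw [h.T4', h.l4, h.l3 y x] at h1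
  exact h1

/-- the two products of projections agree -/
theorem rq (h : Ax L R) (x y : S) : R (L x x) (L y y) = L (L x x) (L y y) := by
  have h1 : L (R (L x x) (L y y)) (R (L x x) (L y y)) = R (L x x) (L y y) := by
    rw [h.E, h.Le, h.S1 (h.Re x), h.R3 y x, h.R4]
  have h2 : L (R (L x x) (L y y)) (L x x) = L (L x x) (L y y) := by
    rw [h.R3 x y, h.t1, h.q1]
  rw [← h1, h.t1, h2, h.q2]

/-- `x' \ y' = x / y` -/
theorem T3 (h : Ax L R) (x y : S) : L (L x (R x x)) (L y (R y y)) = R x y := by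
  rw [h.inv_eq x, h.inv_eq y, h.t1, h.t1]
  rw [h.S1 (h.q3 x y), ← h.rq x y, h.S1 (h.Re y) x (L x x), h.R2, h.t2', ← h.S1 (h.Re y), h.t2']

end Ax

/-- the inverse -/
def iv {S : Type*} (L R : S → S → S) (x : S) : S := L x (R x x)

/-- the product `x y = x / y'` -/
def ml {S : Type*} (L R : S → S → S) (x y : S) : S := R x (iv L R y)

section main

variable {S : Type*} {L R : S → S → S}

theorem iv_iv (h : Ax L R) (x : S) : iv L R (iv L R x) = x := h.inv_inv x

theorem iv_R (h : Ax L R) (x y : S) : iv L R (R x y) = R y x := h.T4 x y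

theorem ml_assoc (h : Ax L R) (x y z : S) :
    ml L R (ml L R x y) z = ml L R x (ml L R y z) := by
  unfold ml
  rw [iv_R h]
  have h1 := h.r1 x (iv L R z) y (L y y)
  rw [h.t2', ← h.inv_eq y] at h1
  exact h1.symm

theorem L_eq (h : Ax L R) (x y : S) : L x y = ml L R (iv L R x) y := by
  unfold ml
  rw [← h.T3 (iv L R x) (iv L R y)]
  show L x y = L (iv L R (iv L R x)) (iv L R (iv L R y))
  rw [iv_iv h, iv_iv h]

theorem R_eq (h : Ax L R) (x y : S) : R x y = ml L R x (iv L R y) := by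
  unfold ml
  rw [iv_iv h]

theorem ml_iv_ml (h : Ax L R) (x : S) : ml L R (ml L R x (iv L R x)) x = x := by
  rw [← R_eq h]
  unfold ml
  have h1 := h.R_R_inv x x
  rw [h.t2'] at h1
  exact h1

theorem iv_ml_iv (h : Ax L R) (x : S) :
    ml L R (ml L R (iv L R x) x) (iv L R x) = iv L R x := by
  have h1 := ml_iv_ml h (iv L R x)
  rwa [iv_iv h] at h1

theorem ml_comm (h : Ax L R) (x y : S) :
    ml L R (R x x) (R y y) = ml L R (R y y) (R x x) := by
  unfold ml
  rw [iv_R h, iv_R h, h.r3]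

end main

end X126.Bim
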