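import Mathlib.Algebra.Group.Basic
import Mathlib.Tactic.Common

/-!
# Inverse semigroups (unique inverses): standard facts
-/

namespace X126.Bim

/-- `inv` gives the unique inverse of every element. -/
structure IsInv {S : Type*} [Semigroup S] (iv : S → S) : Prop where
  i1 : ∀ x, x * iv x * x = x
  i2 : ∀ x, iv x * x * iv x = iv x
  i3 : ∀ x y, x * y * x = x → y * x * y = y → y = iv x

namespace IsInv

variable {S : Type*} [Semigroup S] {iv : S → S}

theorem iviv (h : IsInv iv) (x : S) : iv (iv x) = x := (h.i3 (iv x) x (h.i2 x) (h.i1 x)).symm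

theorem idem_iv (h : IsInv iv) {e : S} (he : e * e = e) : iv e = e :=
  (h.i3 e e (by rw [he, he]) (by rw [he, he])).symm

theorem mul_idem (h : IsInv iv) {e f : S} (he : e * e = e) (hf : f * f = f) :
    (e * f) * (e * f) = e * f := by
  -- a = (ef)'
  have ha1 := h.i1 (e * f)
  have ha2 := h.i2 (e * f)
  have hb1 : (e * f) * (f * iv (e * f) * e) * (e * f) = e * f := by
    calc (e * f) * (f * iv (e * f) * e) * (e * f)
        = e * (f * f) * iv (e * f) * (e * e) * f := by simp only [mul_assoc]
      _ = (e * f) * iv (e * f) * (e * f) := by rw [he, hf]; simp only [mul_assoc]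
      _ = e * f := ha1
  have hb2 : (f * iv (e * f) * e) * (e * f) * (f * iv (e * f) * e) = f * iv (e * f) * e := by
    calc (f * iv (e * f) * e) * (e * f) * (f * iv (e * f) * e)
        = f * iv (e * f) * (e * e) * (f * f) * iv (e * f) * e := by simp only [mul_assoc]
      _ = f * (iv (e * f) * (e * f) * iv (e * f)) * e := by rw [he, hf]; simp only [mul_assoc]
      _ = f * iv (e * f) * e := by rw [ha2]
  have hb3 := h.i3 _ _ hb1 hb2
  have hidem : iv (e * f) * iv (e * f) = iv (e * f) := by
    calc iv (e * f) * iv (e * f) = (f * iv (e * f) * e) * (f * iv (e * f) * e) := by rw [hb3]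
      _ = f * (iv (e * f) * (e * f) * iv (e * f)) * e := by simp only [mul_assoc]
      _ = f * iv (e * f) * e := by rw [ha2]
      _ = iv (e * f) := hb3
  have h4 : e * f = iv (e * f) := by
    have h5 := h.idem_iv hidem
    rw [h.iviv] at h5
    exact h5
  rw [h4]
  exact hidem

theorem comm (h : IsInv iv) {e f : S} (he : e * e = e) (hf : f * f = f) : e * f = f * e := by
  have h1 := h.mul_idem he hf
  have h2 := h.mul_idem hf he
  have h3 : (e * f) * (f * e) * (e * f) = e * f := by
    calc (e * f) * (f * e) * (e * f) = e * (f * f) * (e * e) * f := by simp only [mul_assoc]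
      _ = (e * f) * (e * f) := by rw [he, hf]; simp only [mul_assoc]
      _ = e * f := h1
  have h4 : (f * e) * (e * f) * (f * e) = f * e := by
    calc (f * e) * (e * f) * (f * e) = f * (e * e) * (f * f) * e := by simp only [mul_assoc]
      _ = (f * e) * (f * e) := by rw [he, hf]; simp only [mul_assoc]
      _ = f * e := h2
  rw [h.i3 _ _ h3 h4, h.idem_iv h1]

theorem idem1 (h : IsInv iv) (x : S) : (x * iv x) * (x * iv x) = x * iv x := by
  rw [← mul_assoc, h.i1]

theorem idem2 (h : IsInv iv) (x : S) : (iv x * x) * (iv x * x) = iv x * x := by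
  rw [← mul_assoc, h.i2]

theorem mul_iv (h : IsInv iv) (x y : S) : iv (x * y) = iv y * iv x := by
  symm
  apply h.i3
  · calc x * y * (iv y * iv x) * (x * y) = x * ((y * iv y) * (iv x * x)) * y := by
          simp only [mul_assoc]
      _ = x * ((iv x * x) * (y * iv y)) * y := by rw [h.comm (h.idem1 y) (h.idem2 x)]
      _ = (x * iv x * x) * (y * iv y * y) := by simp only [mul_assoc]
      _ = x * y := by rw [h.i1, h.i1]
  · calc iv y * iv x * (x * y) * (iv y * iv x) = iv y * ((iv x * x) * (y * iv y)) * iv x := by
          simp only [mul_assoc]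
      _ = iv y * ((y * iv y) * (iv x * x)) * iv x := by rw [h.comm (h.idem1 y) (h.idem2 x)]
      _ = (iv y * y * iv y) * (iv x * x * iv x) := by simp only [mul_assoc]
      _ = iv y * iv x := by rw [h.i2, h.i2]

end IsInv

end X126.Bim
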